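import Pool.Agent.Lib.helper5.TUniv

open Cardinal

namespace Pool.Agent.Results.MP_56ca39_gt.NoUniv

/-- the weight: least cardinality of a base -/
noncomputable def weight (X : Type) [TopologicalSpace X] : Cardinal :=
  sInf {c | ∃ B : Set (Set X), TopologicalSpace.IsTopologicalBasis B ∧ #B = c}

/-- `C_p(X)`, with the topology of pointwise convergence -/
abbrev Cp (X : Type) [TopologicalSpace X] := {f : X → ℝ // Continuous f}

/-- `φ` is an extender from `Y` to `X` -/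
def Ext {X : Type} [TopologicalSpace X] (Y : Set X) (φ : Cp Y → Cp X) : Prop :=
  ∀ (f : Cp Y) (y : Y), (φ f).1 y = f.1 y

/-- `φ` is linear -/
def Lin {Y X : Type} [TopologicalSpace Y] [TopologicalSpace X] (φ : Cp Y → Cp X) : Prop :=
  (∀ f g : Cp Y, (φ ⟨f.1 + g.1, f.2.add g.2⟩).1 = (φ f).1 + (φ g).1) ∧
    ∀ (c : ℝ) (f : Cp Y), (φ ⟨c • f.1, f.2.const_smul c⟩).1 = c • (φ f).1

/-- `K` can be t-embedded in `X` -/
def TEmb (K X : Type) [TopologicalSpace K] [TopologicalSpace X] : Prop :=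
  ∃ Y : Set X, Nonempty (K ≃ₜ Y) ∧ ∃ φ : Cp Y → Cp X, Ext Y φ ∧ Continuous φ

/-- `K` can be l-embedded in `X` -/
def LEmb (K X : Type) [TopologicalSpace K] [TopologicalSpace X] : Prop :=
  ∃ Y : Set X, Nonempty (K ≃ₜ Y) ∧ ∃ φ : Cp Y → Cp X, Ext Y φ ∧ Continuous φ ∧ Lin φ

theorem result : ∃ κ : Cardinal.{0}, ℵ₀ ≤ κ ∧
    ∀ (U : Type) [TopologicalSpace U] [CompactSpace U] [T2Space U], weight U ≤ κ →
      ∃ (K : Type) (_ : TopologicalSpace K), CompactSpace K ∧ T2Space K ∧ weight K ≤ κ ∧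
        ¬ TEmb K U ∧ ¬ LEmb K U := by
  refine ⟨𝔠, aleph0_le_continuum, fun U _ _ _ hU => ?_⟩
  obtain ⟨B, hB, hc⟩ : weight U ∈ {c | ∃ B : Set (Set U),
      TopologicalSpace.IsTopologicalBasis B ∧ #B = c} :=
    csInf_mem ⟨_, _, TopologicalSpace.isTopologicalBasis_opens, rfl⟩
  obtain ⟨A, hA⟩ := H5TU.main hB (hc.trans_le hU)
  obtain ⟨C, hC, hc'⟩ := H5TU.basis_K A
  have ht : ¬ TEmb (H5TU.K A) U := by
    rintro ⟨Y, ⟨h⟩, φ, h1, h2⟩
    have hc : Continuous fun (f : H5C.Cp (H5TU.K A)) (y : Y) => f.1 (h.symm y) :=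
      continuous_pi fun y => (continuous_apply (h.symm y)).comp continuous_subtype_val
    refine hA (fun x => (h x).1)
      (fun f => φ ⟨fun y => f.1 (h.symm y), f.2.comp h.symm.continuous⟩)
      (continuous_subtype_val.comp h.continuous) (h2.comp (hc.subtype_mk _)) fun f x => ?_
    rw [h1]; simp
  exact ⟨H5TU.K A, inferInstance, inferInstance, inferInstance,
    le_trans (csInf_le' (by exact ⟨C, hC, rfl⟩)) hc', ht, fun ⟨Y, h, φ, h1, h2, _⟩ => ht ⟨Y, h, φ, h1, h2⟩⟩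

end Pool.Agent.Results.MP_56ca39_gt.NoUniv
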